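import Pool.Agent.Helper65.HF.StC

/-!
Project HF (MP_b56c98_ag, helper65), module TRB: transport inequality below the threshold.
-/

set_option autoImplicit false

namespace Pool.Agent.Helper81.HF

open Pool.Agent.Helper65.HF

/-- splitting a count -/
private theorem num_split {s : Finset (List ℕ)} {Z Z' : List ℕ → Prop}
    (h : ∀ l ∈ s, Z' l → Z l) :
    num s Z' + num s (fun l => Z l ∧ ¬ Z' l) = num s Z := by
  classical
  have h1 : num s Z' = ∑ l ∈ s, (if Z' l then 1 else 0) := num_eq_sum _ _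
  have h2 : num s (fun l => Z l ∧ ¬ Z' l) = ∑ l ∈ s, (if Z l ∧ ¬ Z' l then 1 else 0) :=
    num_eq_sum _ _
  have h3 : num s Z = ∑ l ∈ s, (if Z l then 1 else 0) := num_eq_sum _ _
  rw [h1, h2, h3, ← Finset.sum_add_distrib]
  refine Finset.sum_congr rfl fun l hl => ?_
  by_cases ha : Z' l
  · have hb : Z l := h l hl ha
    simp [ha, hb]
  · by_cases hb : Z l
    · simp [ha, hb]
    · simp [ha, hb]

private theorem srt_rep {N : ℕ} {w : List ℕ} (hw : Srt w) (hN : ∀ x ∈ w, x ≤ N) (j : ℕ) :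
    Srt (w ++ List.replicate j N) := by
  refine List.pairwise_append.2 ⟨hw, ?_, ?_⟩
  · rw [List.pairwise_replicate]
    exact Or.inr le_rfl
  · intro a ha b hb
    rw [List.mem_replicate] at hb
    rw [hb.2]
    exact hN a ha

private theorem pre_rep {St : List ℕ → Prop} (hPre : Pre St) {N : ℕ} {w : List ℕ} (hw : Srt w)
    (hN : ∀ x ∈ w, x ≤ N) (j : ℕ) : St (w ++ List.replicate j N) → St w := by
  induction j with
  | zero => intro h; simpa using h
  | succ j ih =>
    intro h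
    apply ih
    apply hPre _ N
    · have h1 := srt_rep hw hN (j + 1)
      rw [List.replicate_succ', ← List.append_assoc] at h1
      exact h1
    · rw [List.replicate_succ', ← List.append_assoc] at h
      exact h

theorem hTRB : sTRB := by
  intro hMNB hCNT hDEC hOML hEXT hLST hREG j d M ν St hj hjd hM hν hUp hPre hSt0 hreg X hX hL
  obtain ⟨N, rfl⟩ : ∃ N, M = N + 1 := ⟨M - 1, by omega⟩
  obtain ⟨D, rfl⟩ : ∃ D, d = D + 1 := ⟨d - 1, by omega⟩
  simp only [Nat.add_sub_cancel] at hX hL ⊢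
  have hExt : Ext (N + 1) D ν St := by
    intro s hs l hl b hb hle hνb hStl
    have hl1 := mem_srt.1 hl
    have hl' : l ∈ srt (b + 1) s :=
      mem_srt.2 ⟨hl1.1, hl1.2.1, fun x hx => Nat.lt_succ_of_le (hle x hx)⟩
    exact hREG hLST St hPre b s (hreg s (by omega) b hνb hb) l hl' hStl
  have hmem : ∀ c, ∀ w ∈ srt (N + 1) c, Srt w ∧ ∀ x ∈ w, x ≤ N := by
    intro c w hw
    have h1 := mem_srt.1 hw
    exact ⟨h1.2.1, fun x hx => Nat.le_of_lt_succ (h1.2.2 x hx)⟩
  have e1 := hLST.1 N D St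
  have e2 : num (srt (N + 1) D) (fun l => St (l ++ [N])) +
      num (srt (N + 1) D) (fun v => St v ∧ ¬ St (v ++ [N])) = num (srt (N + 1) D) St := by
    refine num_split fun l hl h => ?_
    obtain ⟨h1, h2⟩ := hmem D l hl
    exact hPre l N (by simpa using srt_rep h1 h2 1) h
  have e3 := hLST.2 N (D + 1) j St (by omega)
  have e4 : num (srt (N + 1) (D + 1 - j)) (fun w => St (w ++ List.replicate j N)) +
      num (srt (N + 1) (D + 1 - j)) (fun w => St w ∧ ¬ St (w ++ List.replicate j N)) =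
      num (srt (N + 1) (D + 1 - j)) St := by
    refine num_split fun l hl h => ?_
    obtain ⟨h1, h2⟩ := hmem _ l hl
    exact pre_rep hPre h1 h2 j h
  have e5 := hMNB j (D + 1) (N + 1) ν St hj (by omega) (by omega) hν hUp hPre hExt
  simp only [Nat.add_sub_cancel] at e5
  have e6 := hOML hEXT (N + 1) D (D + 1 - j) ν St hExt hSt0 (by omega)
  have e7 := hCNT hDEC (N + 1) D ν St hPre
  set κ := num (srt (N + 1) D) (fun v => St v ∧ ¬ St (v ++ [N])) with hκ
  set k := num (srt (N + 1) (D + 1 - j)) (fun w => St w ∧ ¬ St (w ++ List.replicate j N)) with hk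
  set n := (tl (N + 1) ν 0 D 0).card with hn
  set m := (tl (N + 1) ν 0 (D + 1 - j) 0).card with hm
  set T := num (srt (N + 1) (D + 1)) St with hT
  set E' := num (srt (N + 1) (D + 1 - j)) St with hE
  set P := num (srt (N + 1) D) St with hP
  set Q := num (srt N (D + 1)) St with hQ
  have e7' : (P : ℝ) - ∑ s ∈ Finset.Icc 1 D, (num (srt (ν s) s) St : ℝ) *
      ((N + 1 : ℕ) : ℝ) ^ (D - s) ≤ n := by
    have h : (P : ℝ) ≤ ((n + ∑ s ∈ Finset.Icc 1 D, num (srt (ν s) s) St * (N + 1) ^ (D - s) :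
      ℕ) : ℝ) := by exact_mod_cast e7
    push_cast at h
    push_cast
    linarith
  set L := (P : ℝ) - ∑ s ∈ Finset.Icc 1 D, (num (srt (ν s) s) St : ℝ) *
      ((N + 1 : ℕ) : ℝ) ^ (D - s) with hLdef
  have hκ' : (P : ℝ) - T + Q = κ := by
    have h1 : (T : ℝ) = Q + (num (srt (N + 1) D) (fun l => St (l ++ [N])) : ℕ) := by
      exact_mod_cast e1
    have h2 : ((num (srt (N + 1) D) (fun l => St (l ++ [N])) : ℕ) : ℝ) + κ = P := by
      exact_mod_cast e2
    linarith
  have hk' : (X : ℝ) - T + E' ≤ k := by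
    have h1 : (T : ℝ) = (num (srt (N + 1) (D + 1))
        (fun l => St l ∧ ¬ ∃ l', l = l' ++ List.replicate j N) : ℕ) +
        (num (srt (N + 1) (D + 1 - j)) (fun w => St (w ++ List.replicate j N)) : ℕ) := by
      exact_mod_cast e3
    have h2 : ((num (srt (N + 1) (D + 1 - j)) (fun w => St (w ++ List.replicate j N)) : ℕ) : ℝ)
        + k = E' := by exact_mod_cast e4
    have h3 : (X : ℝ) ≤ (num (srt (N + 1) (D + 1))
        (fun l => St l ∧ ¬ ∃ l', l = l' ++ List.replicate j N) : ℕ) := by exact_mod_cast hX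
    linarith
  rw [hκ']
  have hk0 : (0 : ℝ) ≤ k := Nat.cast_nonneg _
  have hκ0 : (0 : ℝ) ≤ κ := Nat.cast_nonneg _
  have hE0 : (0 : ℝ) ≤ E' := Nat.cast_nonneg _
  have hm' : (m : ℝ) ≤ E' := by exact_mod_cast e6
  have hkn : (k : ℝ) * n ≤ κ * m := by exact_mod_cast e5
  calc ((X : ℝ) - T + E') * L ≤ k * L := mul_le_mul_of_nonneg_right hk' hL
    _ ≤ k * n := mul_le_mul_of_nonneg_left e7' hk0
    _ ≤ κ * m := hkn
    _ ≤ κ * E' := mul_le_mul_of_nonneg_left hm' hκ0

end Pool.Agent.Helper81.HF
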